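import Pool.Agent.Lib.MP_72e2e6_nt.P3.U.Lit
import Pool.Agent.Lib.MP_72e2e6_nt.P3.U.LitZ

/-!
# MP_72e2e6_nt, the last step: the statement of `P3/U/Lit.lean` implies the statement of `P3/U/LitZ.lean`

The definitions are the same; in `LitZ.lean` they are divided into smaller ones.
-/

namespace Pool.Agent.MP72P

open WeierstrassCurve IntermediateField

open scoped Classical

private theorem toz_sha {K : Type} [Field K] {W : WeierstrassCurve K} {p : ℕ} [Fact p.Prime]
    {L : Type} [Field L] [Algebra K L] {h : Gal(L/K) → ZMod p}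
    {z : Gal(L/K) → ZMod p → (W⁄L).toAffine.Point} (hz : MP72Z.InSha W h z) :
    MP72U.InSha W h z :=
  ⟨⟨hz.1.loc, hz.1.sum, hz.1.mul⟩, hz.2⟩

private theorem toz_shap {K : Type} [Field K] {W : WeierstrassCurve K} {p : ℕ} [Fact p.Prime]
    {L : Type} [Field L] [Algebra K L] {h : Gal(L/K) → ZMod p} (hS : MP72U.ShaPFin W h) :
    MP72Z.ShaPFin W h := by
  obtain ⟨T, hT, hS⟩ := hS
  exact ⟨T, hT, fun z hz hn => hS z (toz_sha hz) hn⟩

private theorem toz_idx {K : Type} [Field K] {W : WeierstrassCurve K} {N : Type} [Field N]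
    [Algebra K N] [dN : DecidableEq N]
    (h : (Affine.Point.map (W' := W.toAffine) (Algebra.ofId K N)).range.FiniteIndex) :
    MP72Z.IdxFin W N := by
  have h1 : dN = fun a b => Classical.propDecidable (a = b) := Subsingleton.elim _ _
  subst h1
  exact h

private theorem toz_good {K : Type} [Field K] {W : WeierstrassCurve K} {p : ℕ} [Fact p.Prime]
    {D : K} (hg : MP72U.Good W p D) : MP72Z.Good W p D := by
  obtain ⟨θ, h, h1, h2, h3, h4, h5, h6⟩ := hg
  exact ⟨θ, h, h1, h2, h3, h4, toz_shap h5, toz_idx h6⟩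

theorem toZ (h : MP72U.T3) : MP72Z.T3 := by
  intro p _ K _ hG E hE hP
  obtain ⟨m, av₀, k1, k2⟩ := h p K hG E hE hP
  refine ⟨m, av₀, k1, ?_⟩
  intro n av hav hav' ε hε
  obtain ⟨B₀, hB₀⟩ := k2 n av ⟨hav.ntr, hav.inq⟩ hav' ε hε
  refine ⟨B₀, fun B hB => ?_⟩
  obtain ⟨g1, g2⟩ := hB₀ B hB
  refine ⟨g1, g2.trans (Nat.cast_le.2 (Set.ncard_le_ncard ?_ (g1.subset fun x hx => hx.1)))⟩
  rintro D ⟨hD, hGD⟩
  exact ⟨hD, toz_good hGD⟩

end Pool.Agent.MP72P
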