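import Pool.Agent.Lib.MP_72e2e6_nt.P3.U.Spec
import Pool.Agent.Lib.MP_72e2e6_nt.W2.E.Cov

/-!
# MP_72e2e6_nt, the last steps: normal forms
-/

namespace Pool.Agent.MP72P

open WeierstrassCurve IntermediateField
open Pool.Agent.MP72W (pmap)
open Pool.Agent.MP72V

open scoped Classical

private theorem nfp_disc {K : Type} [Field K] [CharP K 2] (E : WeierstrassCurve K) :
    E.Δ = E.a₁ ^ 6 * E.a₆ + E.a₁ ^ 5 * E.a₃ * E.a₄ + E.a₁ ^ 4 * E.a₂ * E.a₃ ^ 2 +
      E.a₁ ^ 3 * E.a₃ ^ 3 + E.a₁ ^ 4 * E.a₄ ^ 2 + E.a₃ ^ 4 := by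
  have h2 : (2 : K) = 0 := CharTwo.two_eq_zero
  have h4 : (4 : K) = 0 := by linear_combination 2 * h2
  have h8 : (8 : K) = 0 := by linear_combination 4 * h2
  have h9 : (9 : K) = 1 := by linear_combination 4 * h2
  have h27 : (27 : K) = 1 := by linear_combination 13 * h2
  simp only [WeierstrassCurve.Δ, b₂, b₄, b₆, b₈, h2, h4, h8, h9, h27, zero_mul, zero_add, add_zero,
    one_mul, CharTwo.sub_eq_add, CharTwo.neg_eq]
  ring

private theorem nfp_disc_ne {K : Type} [Field K] (E : WeierstrassCurve K) (C : VariableChange K)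
    (hE : E.Δ ≠ 0) : (C • E).Δ ≠ 0 := by
  rw [variableChange_Δ]
  exact mul_ne_zero (pow_ne_zero _ (Units.ne_zero _)) hE

private theorem nfp_od {K : Type} [Field K] (p : ℕ) (E : WeierstrassCurve K) (C : VariableChange K)
    (h : ∃ P : (E⁄(AlgebraicClosure K)).toAffine.Point, P ≠ 0 ∧ p • P = 0) : Od p (C • E) := by
  obtain ⟨P, hP, hP'⟩ := h
  obtain ⟨φ, -⟩ := MP72W.tCov K E C
  refine ⟨(φ (AlgebraicClosure K)).symm P, ?_, ?_⟩
  · intro h0
    apply hP
    have h1 := congrArg (φ (AlgebraicClosure K)) h0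
    rw [AddEquiv.apply_symm_apply, map_zero] at h1
    exact h1
  · rw [← map_nsmul, hP', map_zero]

private theorem nfp_a1 {K : Type} [Field K] [CharP K 2] (E : WeierstrassCurve K) (hE : E.Δ ≠ 0)
    (h : ∃ P : (E⁄(AlgebraicClosure K)).toAffine.Point, P ≠ 0 ∧ 2 • P = 0) : E.a₁ ≠ 0 := by
  intro ha
  obtain ⟨P, hP, hP'⟩ := h
  have h1 : P = -P := by
    rw [two_nsmul] at hP'
    exact eq_neg_of_add_eq_zero_left hP'
  rcases P with _ | ⟨x, y, hxy⟩
  · exact hP rfl
  · rw [Affine.Point.neg_some] at h1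
    have h3 := (Affine.Point.some.inj h1).2
    rw [Affine.negY] at h3
    have ha' : (E⁄(AlgebraicClosure K)).toAffine.a₁ = 0 := by
      change algebraMap K (AlgebraicClosure K) E.a₁ = 0
      rw [ha, map_zero]
    have hc : CharP (AlgebraicClosure K) 2 :=
      charP_of_injective_algebraMap (algebraMap K (AlgebraicClosure K)).injective 2
    have h2 : (2 : AlgebraicClosure K) = 0 := CharTwo.two_eq_zero
    have h4 : (E⁄(AlgebraicClosure K)).toAffine.a₃ = 0 := by
      rw [ha'] at h3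
      linear_combination h3 - y * h2
    have h5 : algebraMap K (AlgebraicClosure K) E.a₃ = 0 := h4
    have h6 : E.a₃ = 0 := (map_eq_zero_iff _ (algebraMap K (AlgebraicClosure K)).injective).1 h5
    apply hE
    rw [nfp_disc E, ha, h6]
    ring

theorem tNfp : S_Nfp := by
  intro p _ K _ _ E hE hP
  by_cases hp : p = 2
  · subst hp
    have h2 : (2 : K) = 0 := CharTwo.two_eq_zero
    have ha1 := nfp_a1 E hE hP
    refine ⟨⟨Units.mk0 E.a₁ ha1, E.a₃ / E.a₁, 0,
      (E.a₁ ^ 2 * E.a₄ + E.a₃ ^ 2) / E.a₁ ^ 3⟩, fun h => absurd rfl h, fun _ => ?_⟩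
    set C : VariableChange K := ⟨Units.mk0 E.a₁ ha1, E.a₃ / E.a₁, 0,
      (E.a₁ ^ 2 * E.a₄ + E.a₃ ^ 2) / E.a₁ ^ 3⟩ with hC
    have e1 : (C • E).a₁ = 1 := by
      rw [variableChange_a₁]
      simp only [hC, Units.val_inv_eq_inv_val, Units.val_mk0, mul_zero, add_zero]
      exact inv_mul_cancel₀ ha1
    have e3 : (C • E).a₃ = 0 := by
      rw [variableChange_a₃]
      simp only [hC, Units.val_inv_eq_inv_val, Units.val_mk0]
      rw [div_mul_cancel₀ _ ha1, h2, zero_mul, add_zero, CharTwo.add_self_eq_zero, mul_zero]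
    have e4 : (C • E).a₄ = 0 := by
      rw [variableChange_a₄]
      simp only [hC, Units.val_inv_eq_inv_val, Units.val_mk0]
      field_simp
      linear_combination (E.a₁ * (E.a₁ * E.a₃ * E.a₂ + E.a₃ ^ 2)) * h2
    refine ⟨e1, e3, e4, ?_⟩
    have h6 := nfp_disc_ne E C hE
    rw [nfp_disc, e1, e3, e4] at h6
    rw [isUnit_iff_ne_zero]
    intro h7
    apply h6
    rw [h7]
    ring
  · have h2 : (2 : K) ≠ 0 := by
      have h0 : ((2 : ℕ) : K) ≠ 0 := by
        rw [Ne, CharP.cast_eq_zero_iff K p]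
        intro h3
        exact hp ((Nat.prime_dvd_prime_iff_eq (Fact.out) Nat.prime_two).1 h3)
      exact_mod_cast h0
    refine ⟨⟨1, 0, -E.a₁ / 2, -E.a₃ / 2⟩, fun _ => ⟨⟨?_, ?_, ?_⟩, nfp_od p E _ hP⟩,
      fun h => absurd h hp⟩
    · rw [variableChange_a₁]
      field_simp
      ring
    · rw [variableChange_a₃]
      field_simp
      ring
    · exact (nfp_disc_ne E _ hE).isUnit

end Pool.Agent.MP72P
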