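import Pool.Agent.Lib.MP_72e2e6_nt.P3.U.Spec

/-!
# MP_72e2e6_nt, the last steps: separable generation
-/

namespace Pool.Agent.MP72P

open IntermediateField Polynomial

private theorem sgf_aux (F K : Type) [Field F] [Field K] [Algebra F K] (x : K)
    (hx : Transcendental F x) (hfd : FiniteDimensional F⟮x⟯ K)
    (hsep : Algebra.IsSeparable F⟮x⟯ K) :
    ∃ _ : Algebra (RatFunc F) K,
      FiniteDimensional (RatFunc F) K ∧ Algebra.IsSeparable (RatFunc F) K := by
  let e : RatFunc F ≃+* F⟮x⟯ := (RatFunc.algEquivOfTranscendental x hx).toRingEquiv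
  let A : Algebra (RatFunc F) K := ((algebraMap F⟮x⟯ K).comp e.toRingHom).toAlgebra
  have he : RingHom.comp (algebraMap (RatFunc F) K) ↑e.symm =
      RingHom.comp ↑(RingEquiv.refl K) (algebraMap F⟮x⟯ K) := by
    ext a
    change algebraMap F⟮x⟯ K (e (e.symm a)) = algebraMap F⟮x⟯ K a
    rw [RingEquiv.apply_symm_apply]
  refine ⟨A, ?_, ?_⟩
  · exact Module.Finite.of_equiv_equiv e.symm (RingEquiv.refl K) he
  · exact Algebra.IsSeparable.of_equiv_equiv e.symm (RingEquiv.refl K) he

private theorem sgf_basis (F K : Type) [Field F] [Field K] [Algebra F K] [Algebra (RatFunc F) K]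
    [IsScalarTower F (RatFunc F) K] [FiniteDimensional (RatFunc F) K] :
    IsTranscendenceBasis F (fun _ : Unit => algebraMap (RatFunc F) K RatFunc.X) := by
  have h1 : IsTranscendenceBasis F (fun _ : Unit => (X : F[X])) := IsTranscendenceBasis.polynomial
    (ι := Unit) (R := F)
  have h0 : Algebra.IsAlgebraic F[X] (RatFunc F) :=
    (IsFractionRing.comap_isAlgebraic_iff (A := F[X]) (K := RatFunc F) (C := RatFunc F)).2
      inferInstance
  have h2 := h1.algebraMap_comp (A := RatFunc F)
  have h3 := h2.algebraMap_comp (A := K)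
  have h4 : (algebraMap (RatFunc F) K ∘ (algebraMap F[X] (RatFunc F) ∘ fun _ : Unit => (X : F[X]))) =
      (fun _ : Unit => algebraMap (RatFunc F) K RatFunc.X) := by
    funext u
    simp
  rw [h4] at h3
  exact h3

private theorem sgf_ess (F K : Type) [Field F] [Field K] [Algebra F K] [Algebra (RatFunc F) K]
    [IsScalarTower F (RatFunc F) K] [FiniteDimensional (RatFunc F) K] :
    Algebra.EssFiniteType F K := by
  have h1 : Algebra.EssFiniteType F[X] (RatFunc F) :=
    Algebra.EssFiniteType.of_isLocalization _ (nonZeroDivisors F[X])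
  have h2 : Algebra.EssFiniteType F (RatFunc F) := Algebra.EssFiniteType.comp F F[X] (RatFunc F)
  have h3 : Algebra.EssFiniteType (RatFunc F) K := inferInstance
  exact Algebra.EssFiniteType.comp F (RatFunc F) K

theorem tSgf : S_Sgf := by
  intro p _ K _ hG
  obtain ⟨F, _, _, hch, _, hfd⟩ := hG
  let : Algebra F K := ((algebraMap (RatFunc F) K).comp (algebraMap F (RatFunc F))).toAlgebra
  have : IsScalarTower F (RatFunc F) K := IsScalarTower.of_algebraMap_eq fun _ => rfl
  have := sgf_ess F K
  obtain ⟨s, hs, hsep⟩ := exists_isTranscendenceBasis_and_isSeparable_of_perfectField F K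
  have h1 := sgf_basis F K
  have hc : s.card = 1 := by
    have h2 := hs.cardinalMk_eq h1
    have h3 : Cardinal.mk s = (s.card : Cardinal) := by simp
    rw [Cardinal.mk_unit] at h2
    have h4 : (s.card : Cardinal) = (1 : ℕ) := by
      rw [← h3, Nat.cast_one]
      exact h2
    exact_mod_cast h4
  obtain ⟨x, rfl⟩ := Finset.card_eq_one.1 hc
  have hx : Transcendental F x := hs.1.transcendental ⟨x, Finset.mem_singleton_self x⟩
  have hsep' : Algebra.IsSeparable F⟮x⟯ K := by
    have h5 : ((({x} : Finset K) : Set K)) = ({x} : Set K) := Finset.coe_singleton x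
    rw [h5] at hsep
    exact hsep
  have : Algebra.EssFiniteType F⟮x⟯ K := Algebra.EssFiniteType.of_comp F F⟮x⟯ K
  have hfd' : FiniteDimensional F⟮x⟯ K := Algebra.finite_of_essFiniteType_of_isAlgebraic
  obtain ⟨A, hA1, hA2⟩ := sgf_aux F K x hx hfd' hsep'
  exact ⟨F, inferInstance, inferInstance, hch, A, hA1, hA2⟩

end Pool.Agent.MP72P
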