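import Pool.Agent.Lib.MP_72e2e6_nt.P3.U.Spec

/-!
# MP_72e2e6_nt, the last steps: the final statement
-/

namespace Pool.Agent.MP72P

open WeierstrassCurve IntermediateField
open Pool.Agent.MP72V

open scoped Classical

private theorem uniT_sha {K : Type} [Field K] {W : WeierstrassCurve K} {p : ℕ} [Fact p.Prime]
    {L : Type} [Field L] [Algebra K L] {h : Gal(L/K) → ZMod p}
    {z : Gal(L/K) → ZMod p → (W⁄L).toAffine.Point} (hz : MP72U.InSha W h z) :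
    MP72Q.InSha W h z :=
  ⟨⟨hz.1.loc, hz.1.sum, hz.1.mul⟩, hz.2⟩

private theorem uniT_shap {K : Type} [Field K] {W : WeierstrassCurve K} {p : ℕ} [Fact p.Prime]
    {L : Type} [Field L] [Algebra K L] {h : Gal(L/K) → ZMod p} (hS : MP72Q.ShaPFin W h) :
    MP72U.ShaPFin W h := by
  obtain ⟨T, hT, hS⟩ := hS
  exact ⟨T, hT, fun z hz => hS z (uniT_sha hz)⟩

private theorem uniT_good {K : Type} [Field K] {W : WeierstrassCurve K} {p : ℕ} [Fact p.Prime]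
    {D : K} (hg : MP72Q.Good W p D) : MP72U.Good W p D := by
  obtain ⟨θ, h, h1, h2, h3, h4, h5, h6⟩ := hg
  exact ⟨θ, h, h1, h2, h3, h4, uniT_shap h5, h6⟩

theorem tUniT (h1 : S_Sgf) (h2 : S_Fin) (h3 : S_Fin2) (h4 : S_VchU) (h5 : S_Nfp) : S_UniT := by
  intro p _ K _ hG E hE hP
  have g := h1 p K hG
  have hch : CharP K p := by
    obtain ⟨F, _, _, _, _, _, _⟩ := g
    exact charP_of_injective_algebraMap (algebraMap (RatFunc F) K).injective p
  obtain ⟨C, c1, c2⟩ := h5 p K E hE hP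
  apply h4 p K E C
  by_cases hp : p = 2
  · subst hp
    exact h3 K g (C • E) (c2 rfl)
  · obtain ⟨n1, n2⟩ := c1 hp
    obtain ⟨m, av₀, k1, k2⟩ := h2 p hp K g (C • E) n1.dis.ne_zero n1.a1 n1.a3 n2
    refine ⟨m, av₀, k1, ?_⟩
    intro n av hav hav' ε hε
    obtain ⟨B₀, hB₀⟩ := k2 n av ⟨hav.ntr, hav.inq⟩ hav' ε hε
    refine ⟨B₀, fun B hB => ?_⟩
    obtain ⟨g1, g2⟩ := hB₀ B hB
    refine ⟨g1, g2.trans (Nat.cast_le.2 (Set.ncard_le_ncard ?_ (g1.subset fun x hx => hx.1)))⟩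
    rintro D ⟨hD, hGD⟩
    exact ⟨hD, uniT_good hGD⟩

end Pool.Agent.MP72P
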