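import Pool.Agent.Lib.MP_72e2e6_nt.P3.All
import Pool.Agent.Lib.MP_72e2e6_nt.W2.All
import Pool.Agent.Lib.MP_72e2e6_nt.P3.E2.Alp
import Pool.Agent.Lib.MP_72e2e6_nt.P3.E2.Bas
import Pool.Agent.Lib.MP_72e2e6_nt.P3.E2.Cnv
import Pool.Agent.Lib.MP_72e2e6_nt.P3.E2.DscV
import Pool.Agent.Lib.MP_72e2e6_nt.P3.E2.FS
import Pool.Agent.Lib.MP_72e2e6_nt.P3.E2.FSu
import Pool.Agent.Lib.MP_72e2e6_nt.P3.E2.Fr1V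
import Pool.Agent.Lib.MP_72e2e6_nt.P3.E2.GdTT
import Pool.Agent.Lib.MP_72e2e6_nt.P3.E2.IdxE
import Pool.Agent.Lib.MP_72e2e6_nt.P3.E2.Man
import Pool.Agent.Lib.MP_72e2e6_nt.P3.E2.Nbd
import Pool.Agent.Lib.MP_72e2e6_nt.P3.E2.OneV
import Pool.Agent.Lib.MP_72e2e6_nt.P3.E2.PsiV
import Pool.Agent.Lib.MP_72e2e6_nt.P3.E2.Thm
import Pool.Agent.Lib.MP_72e2e6_nt.P3.E2.VS
import Pool.Agent.Lib.MP_72e2e6_nt.P3.E2.VSb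
import Pool.Agent.Lib.MP_72e2e6_nt.P3.E2.VSr
import Pool.Agent.Lib.MP_72e2e6_nt.P3.EN2.CloT
import Pool.Agent.Lib.MP_72e2e6_nt.P3.EN2.DbfT
import Pool.Agent.Lib.MP_72e2e6_nt.P3.EN2.DviT
import Pool.Agent.Lib.MP_72e2e6_nt.P3.EN2.ENT
import Pool.Agent.Lib.MP_72e2e6_nt.P3.EN2.FxhT
import Pool.Agent.Lib.MP_72e2e6_nt.P3.EN2.NbhT
import Pool.Agent.Lib.MP_72e2e6_nt.P3.EN2.PtT
import Pool.Agent.Lib.MP_72e2e6_nt.P3.EN2.TorT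
import Pool.Agent.Lib.MP_72e2e6_nt.P3.U.Fin2
import Pool.Agent.Lib.MP_72e2e6_nt.P3.U.Nfp
import Pool.Agent.Lib.MP_72e2e6_nt.P3.U.Sgf
import Pool.Agent.Lib.MP_72e2e6_nt.P3.U.UniT
import Pool.Agent.Lib.MP_72e2e6_nt.P3.U.VchU
import Pool.Agent.Lib.MP_72e2e6_nt.WP.El2.Bas2
import Pool.Agent.Lib.MP_72e2e6_nt.WP.El2.Fr2
import Pool.Agent.Lib.MP_72e2e6_nt.WP.El2.It2
import Pool.Agent.Lib.MP_72e2e6_nt.WP.El2.LoW2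
import Pool.Agent.Lib.MP_72e2e6_nt.WP.El2.Rk2
import Pool.Agent.Lib.MP_72e2e6_nt.WP.El2.UnW2
import Pool.Agent.Lib.MP_72e2e6_nt.WP.El2.Unv2
import Pool.Agent.Lib.MP_72e2e6_nt.WP.El2.Vh2
import Pool.Agent.Lib.MP_72e2e6_nt.WP.El2.Vx2
import Pool.Agent.Lib.MP_72e2e6_nt.WP.El2.Wt2
import Pool.Agent.Lib.MP_72e2e6_nt.WP.El2.Wu12
import Pool.Agent.Lib.MP_72e2e6_nt.WP.El2.Wun2
/-!
# MP_72e2e6_nt, the theorem for every prime number: assembly of the modules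
-/

namespace Pool.Agent.MP72A

theorem aP_Sgf : MP72P.S_Sgf :=
  MP72P.tSgf

theorem aP_BasT : MP72P.S_BasT :=
  MP72P.tBasT

theorem aP_IdxET : MP72P.S_IdxET :=
  MP72P.tIdxET aP_BasT

theorem aV_It2 : MP72V.S_It2 :=
  MP72V.tIt2 MP72W.aPts MP72W.aMap MP72W.aFV MP72W.aFVh MP72W.aFVn

theorem aP_ItT : MP72P.S_ItT :=
  MP72P.cItT aV_It2

theorem aV_Rk2 : MP72V.S_Rk2 :=
  MP72V.tRk2 MP72W.aPts MP72W.aMap MP72W.aFV MP72W.aFVh MP72W.aVsu MP72W.aInf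

theorem aP_RkT : MP72P.S_RkT :=
  MP72P.cRkT aV_Rk2

theorem aV_Fr2 : MP72V.S_Fr2 :=
  MP72V.tFr2 MP72W.aPts MP72W.aMap MP72W.aFV MP72W.aFVh

theorem aP_FrT : MP72P.S_FrT :=
  MP72P.cFrT aV_Fr2

theorem aV_Vh2 : MP72V.S_Vh2 :=
  MP72V.tVh2 MP72W.aPts MP72W.aMap MP72W.aFV MP72W.aFVh

theorem aP_VhT : MP72P.S_VhT :=
  MP72P.cVhT aV_Vh2

theorem aP_Fr1VT : MP72P.S_Fr1VT :=
  MP72P.tFr1VT aP_Res aP_BasT aP_FrT aP_VhT aP_ItT aP_ShgV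

theorem aP_VSrT : MP72P.S_VSrT :=
  MP72P.tVSrT aP_BasT aP_FrT aP_VhT aP_ItT

theorem aP_PsiVT : MP72P.S_PsiVT :=
  MP72P.tPsiVT aP_BasT aP_FrT aP_VhT aP_ItT aP_RkT aP_VSrT aP_Has aP_Res aP_Onr aP_Psf aP_Rgo

theorem aP_DscVT : MP72P.S_DscVT :=
  MP72P.tDscVT aP_Res aP_BasT aP_FrT aP_VhT aP_ItT aP_RkT

theorem aP_VSbT : MP72P.S_VSbT :=
  MP72P.tVSbT aP_Lrb aP_Kap aP_Vs2

theorem aP_VST : MP72P.S_VST :=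
  MP72P.tVST aP_Res aP_Hst aP_Rgo aP_Onr aP_Fac aP_BasT aP_FrT aP_VhT aP_ItT aP_VSrT aP_VSbT

theorem aV_Wt2 : MP72V.S_Wt2 :=
  MP72V.tWt2 MP72W.aPts MP72W.aMap MP72W.aFV MP72W.aFVh MP72W.aWt

theorem aP_WtT : MP72P.S_WtT :=
  MP72P.cWtT aV_Wt2

theorem aV_Wtc2 : MP72V.S_Wtc2 :=
  MP72V.tWtc2 MP72W.aPts MP72W.aMap MP72W.aFV MP72W.aFVh MP72W.aWtc

theorem aP_WtcT : MP72P.S_WtcT :=
  MP72P.cWtcT aV_Wtc2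

theorem aP_FSuT : MP72P.S_FSuT :=
  MP72P.tFSuT aP_BasT aP_FrT aP_ItT aP_WtT aP_WtcT aP_Has aP_Hst aP_Rgo aP_Onr aP_Uw

theorem aP_FST : MP72P.S_FST :=
  MP72P.tFST aP_Lrb aP_ItT aP_WtT aP_Hst aP_RCs aP_FSuT

theorem aP_OneVT : MP72P.S_OneVT :=
  MP72P.tOneVT aP_Lrb aP_Lin2 aP_Res aP_Has aP_Hst aP_Rgo aP_ItT aP_VSrT aP_DscVT aP_VST aP_FST
    aP_FshV

theorem aP_ManT : MP72P.S_ManT :=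
  MP72P.tManT aP_Lrb aP_Lfn aP_ThA2 aP_Hst aP_ItT aP_PsiVT aP_Dep aP_Mrk aP_OneVT

theorem aP_PtT : MP72P.S_PtT :=
  MP72P.tPtT MP72W.aPts

theorem aP_NbhT : MP72P.S_NbhT :=
  MP72P.tNbhT aP_PtT aP_BasT

theorem aP_CloT : MP72P.S_CloT :=
  MP72P.tCloT aP_PtT aP_Na

theorem aP_DbfT : MP72P.S_DbfT :=
  MP72P.tDbfT aP_PtT aP_BasT

theorem aP_TorT : MP72P.S_TorT :=
  MP72P.tTorT aP_PtT aP_BasT aP_NbhT aP_CloT aP_Cvr aP_DbfT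

theorem aP_DviT : MP72P.S_DviT :=
  MP72P.tDviT aP_PtT aP_BasT aP_NbhT aP_CloT aP_Cvr

theorem aP_FxhT : MP72P.S_FxhT :=
  MP72P.tFxhT aP_BasT

theorem aP_ENT : MP72P.S_ENT :=
  MP72P.tENT aP_Plc aP_Dsc aP_Gfl aP_BasT aP_TorT aP_DviT aP_FxhT

theorem aV_Bas2 : MP72V.S_Bas2 :=
  MP72V.tBas2 MP72W.aPts MP72W.aMap

theorem aV_Vx2 : MP72V.S_Vx2 :=
  MP72V.tVx2 MP72W.aPts MP72W.aMap MP72W.aFV MP72W.aFVh MP72W.aVsu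

theorem aV_Unv2 : MP72V.S_Unv2 :=
  MP72V.tUnv2 aV_Bas2 aV_Vx2 MP72W.aPts aP_Lc1 aP_Lc2 aP_Nr

theorem aV_Wu12 : MP72V.S_Wu12 :=
  MP72V.tWu12 aP_Lc1 aP_Lc2 MP72W.aPts MP72W.aMap MP72W.aFV MP72W.aFVn MP72W.aNz

theorem aV_Wun2 : MP72V.S_Wun2 :=
  MP72V.tWun2 aP_Lc1 aP_Lc2 aP_Cst aP_Nr MP72W.aPts MP72W.aMap MP72W.aFVn MP72W.aNz MP72W.aWAd
    MP72W.aDif aV_Wu12

theorem aP_UnW2 : MP72P.S_UnW2 :=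
  MP72V.tUnW2 aV_Bas2 aV_It2 aV_Unv2 aV_Wun2 MP72W.aPts MP72W.aMap MP72W.aFV MP72W.aFVh aP_Lc1
    aP_Lc2 aP_Cst aP_Nr aP_Alm aP_Dsc

theorem aP_UnWT : MP72P.S_UnWT :=
  MP72P.cUnWT aP_UnW2

theorem aP_LoW2 : MP72P.S_LoW2 :=
  MP72V.tLoW2 aV_Bas2 aV_Vx2 aV_It2 MP72W.aPts aV_HpT aP_Lc1 aP_Dsc

theorem aP_LoWT : MP72P.S_LoWT :=
  MP72P.cLoWT aP_LoW2

theorem aP_GdTT : MP72P.S_GdTT :=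
  MP72P.tGdTT aP_Has aP_Hst aP_Rgo aP_Lts aP_Gdx

theorem aP_AlpT : MP72P.S_AlpT :=
  MP72P.tAlpT aP_RH90 aP_BasT aP_ItT aP_Has

theorem aP_NbdT : MP72P.S_NbdT :=
  MP72P.tNbdT aP_Lrb aP_Lfn aP_Hst aP_Rgo aP_ItT aP_FST

theorem aP_ThmT : MP72P.S_ThmT :=
  MP72P.tThmT aP_BasT aP_ItT aP_RkT aP_Has aP_Hst aP_Rgo aP_Dep aP_Fr1VT aP_ManT aP_ENT aP_S0x
    aP_UnWT aP_LoWT aP_GdTT aP_AlpT aP_NbdT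

theorem aP_Fin2 : MP72P.S_Fin2 :=
  MP72P.tFin2 aP_Na aP_Has aP_Fdg aP_IdxET aP_Eql aP_ThmT

theorem aP_VchU : MP72P.S_VchU :=
  MP72P.tVchU

theorem aP_Nfp : MP72P.S_Nfp :=
  MP72P.tNfp

theorem aP_UniT : MP72P.S_UniT :=
  MP72P.tUniT aP_Sgf aP_Fin aP_Fin2 aP_VchU aP_Nfp

end Pool.Agent.MP72A
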