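import Mathlib

/-!
# MP_72e2e6_nt: cyclic extensions of degree `p` of a global function field of characteristic `p`
(definitions and statement)

`K` is a field of characteristic `p`, `W` a Weierstrass curve over `K`, `L` a separable closure of
`K`, `θ ∈ L` with `θ ^ p - θ = D ∈ K`, `h : Gal(L/K) → ZMod p` the homomorphism with `σ θ = θ + h σ`.
If `D` is not of the form `x ^ p - x`, `K(θ)/K` is a cyclic extension of degree `p`.

`A` is the kernel of the norm (trace) from the Weil restriction of `W` from `K(θ)` to `K` to `W`, an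
abelian variety of dimension `p - 1` over `K` (the part of the Weil restriction which is new over
`K(θ)`; for `p = 2` it is the quadratic twist of `W`). It is given by its points over the extensions
`N` of `L` with the action of the Galois groups: `A(N)` is the group of the vectors `v : ZMod p → W(N)`
with `∑ i, v i = 0`, and `σ` maps `v` to the vector with the components `σ (v (i - h σ))`.

`InSha W h z` says that `z` is a locally constant crossed homomorphism `Gal(L/K) → A(L)` whose
restriction to the absolute Galois group of the completion of `K` at every nontrivial absolute value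
is trivial; `ShaPFin W h` says that the `p`-primary component of the Tate-Shafarevich group of `A` (the
classes of these crossed homomorphisms which are killed by a power of `p`) is finite.
-/

namespace Pool.Agent.MP72U

open WeierstrassCurve IntermediateField

section

variable {K : Type} [Field K] (W : WeierstrassCurve K)

open scoped Classical in
/-- The map on points induced by a homomorphism of fields over `S`, `S` a field over which the curve
is defined. -/
noncomputable def pmap {S L M : Type} [Field S] [Field L] [Field M] [Algebra K S] [Algebra K L]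
    [Algebra K M] [Algebra S L] [Algebra S M] [IsScalarTower K S L] [IsScalarTower K S M]
    (f : L →ₐ[S] M) (P : (W⁄L).toAffine.Point) : (W⁄M).toAffine.Point :=
  Affine.Point.map f P

variable {p : ℕ} [Fact p.Prime] {L : Type} [Field L] [Algebra K L] (h : Gal(L/K) → ZMod p)

open scoped Classical in
/-- `A(K)`: the vectors of `A(L)` which are fixed by the Galois group. -/
def Rat : Set (ZMod p → (W⁄L).toAffine.Point) :=
  {v | ∑ i, v i = 0 ∧ ∀ (σ : Gal(L/K)) (i : ZMod p), pmap W (σ : L →ₐ[K] L) (v (i - h σ)) = v i}

open scoped Classical in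
/-- `z` is a locally constant crossed homomorphism with values in `A(L)`. -/
structure IsCoc (z : Gal(L/K) → ZMod p → (W⁄L).toAffine.Point) : Prop where
  loc : IsLocallyConstant z
  sum : ∀ σ, ∑ i, z σ i = 0
  mul : ∀ σ τ i, z (σ * τ) i = z σ i + pmap W (σ : L →ₐ[K] L) (z τ (i - h σ))

open scoped Classical in
/-- `z` is trivial over the extension `M` of `K` with the separable closure `N`: for every embedding
`ι` of `L` in `N` there is `Q ∈ A(N)` with `ι (z σ) = τ Q - Q` whenever `σ` is the restriction of
`τ ∈ Gal(N/M)` to `L`. -/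
def LocTriv (z : Gal(L/K) → ZMod p → (W⁄L).toAffine.Point) (M N : Type) [Field M] [Field N]
    [Algebra K M] [Algebra K N] [Algebra M N] [IsScalarTower K M N] : Prop :=
  ∀ ι : L →ₐ[K] N, ∃ Q : ZMod p → (W⁄N).toAffine.Point, ∑ i, Q i = 0 ∧
    ∀ (σ : Gal(L/K)) (τ : Gal(N/M)), (∀ x, τ (ι x) = ι (σ x)) →
      ∀ i, pmap W ι (z σ i) = pmap W (τ : N →ₐ[M] N) (Q (i - h σ)) - Q i

/-- `z` defines an element of the Tate-Shafarevich group of `A`: it is trivial over every completion
`M` of `K` (a complete normed field in which `K`, with the nontrivial absolute value `v`, is dense),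
`N` a separable closure of `M`. -/
def InSha (z : Gal(L/K) → ZMod p → (W⁄L).toAffine.Point) : Prop :=
  IsCoc W h z ∧ ∀ v : AbsoluteValue K ℝ, v.IsNontrivial →
    ∀ (M N : Type) [NormedField M] [CompleteSpace M] [Field N] [Algebra K M] [Algebra K N]
      [Algebra M N] [IsScalarTower K M N] [IsSepClosure M N],
      (∀ x : K, ‖algebraMap K M x‖ = v x) → DenseRange (algebraMap K M) → LocTriv W h z M N

open scoped Classical in
/-- The `p`-primary component of the Tate-Shafarevich group of `A` is finite. -/
def ShaPFin : Prop :=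
  ∃ T : Set (Gal(L/K) → ZMod p → (W⁄L).toAffine.Point), T.Finite ∧ ∀ z, InSha W h z →
    (∃ (n : ℕ) (P : ZMod p → (W⁄L).toAffine.Point), ∑ i, P i = 0 ∧ ∀ (σ : Gal(L/K)) (i : ZMod p),
      p ^ n • z σ i = pmap W (σ : L →ₐ[K] L) (P (i - h σ)) - P i) →
    ∃ y ∈ T, ∃ P : ZMod p → (W⁄L).toAffine.Point, ∑ i, P i = 0 ∧
      ∀ (σ : Gal(L/K)) (i : ZMod p),
        z σ i - y σ i = pmap W (σ : L →ₐ[K] L) (P (i - h σ)) - P i

open scoped Classical in
/-- The properties of `D` in the theorem: `K(θ)/K` is an extension of degree `p`, the group `A(K)` and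
the `p`-primary component of the Tate-Shafarevich group of `A` are finite, and `W(K)` has finite
index in `W(K(θ))`. -/
def Good (p : ℕ) [Fact p.Prime] (D : K) : Prop :=
  ∃ (θ : SeparableClosure K) (h : Gal(SeparableClosure K/K) → ZMod p),
    θ ^ p - θ = algebraMap K (SeparableClosure K) D ∧
    (∀ σ : Gal(SeparableClosure K/K), σ θ = θ + ((h σ).val : SeparableClosure K)) ∧
    Module.finrank K K⟮θ⟯ = p ∧ (Rat W h).Finite ∧ ShaPFin W h ∧
    (Affine.Point.map (W' := W.toAffine) (Algebra.ofId K K⟮θ⟯)).range.FiniteIndex

end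

/-- `K` is a global function field of characteristic `p`: a finite extension of a field of rational
functions `F(t)`, `F` a finite field of characteristic `p`. -/
def IsGlobal (p : ℕ) (K : Type) [Field K] : Prop :=
  ∃ (F : Type) (_ : Field F) (_ : Finite F) (_ : CharP F p) (_ : Algebra (RatFunc F) K),
    FiniteDimensional (RatFunc F) K

/-- A finite set of places of `K`: nontrivial, pairwise not equivalent absolute values. -/
structure Places {K : Type} [Field K] {n : ℕ} (av : Fin n → AbsoluteValue K ℝ) : Prop where
  ntr : ∀ j, (av j).IsNontrivial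
  inq : ∀ i j, i ≠ j → ¬ (av i).IsEquiv (av j)

/-- The functions `D ∈ K` which are regular at all places different from the `av j` and have the
absolute value at most `B j` at `av j`. -/
def Tw {K : Type} [Field K] {n : ℕ} (av : Fin n → AbsoluteValue K ℝ) (B : Fin n → ℝ) : Set K :=
  {D | (∀ v : AbsoluteValue K ℝ, v.IsNontrivial → (∀ j, ¬ v.IsEquiv (av j)) → v D ≤ 1) ∧
    ∀ j, av j D ≤ B j}

open scoped Classical in
/-- The theorem for the curve `E`. -/
def ThmFor (p : ℕ) [Fact p.Prime] {K : Type} [Field K] (E : WeierstrassCurve K) : Prop :=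
  ∃ (m : ℕ) (av₀ : Fin m → AbsoluteValue K ℝ), (∀ i, (av₀ i).IsNontrivial) ∧
    ∀ (n : ℕ) (av : Fin n → AbsoluteValue K ℝ), Places av →
      (∀ i, ∃ j, (av j).IsEquiv (av₀ i)) →
      ∀ ε : ℝ, 0 < ε → ∃ B₀ : ℝ, ∀ B : Fin n → ℝ, (∀ j, B₀ ≤ B j) →
        (Tw av B).Finite ∧
        (1 - ε) * ((Tw av B).ncard : ℝ) ≤ ({D ∈ Tw av B | Good E p D}.ncard : ℝ)

open scoped Classical in
/-- THE THEOREM. -/
def T3 : Prop :=
  ∀ (p : ℕ) [Fact p.Prime] (K : Type) [Field K], IsGlobal p K →
    ∀ E : WeierstrassCurve K, E.Δ ≠ 0 →
    (∃ P : (E⁄(AlgebraicClosure K)).toAffine.Point, P ≠ 0 ∧ p • P = 0) → ThmFor p E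

end Pool.Agent.MP72U
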