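import Pool.Agent.Lib.MP_72e2e6_nt.P3.U.Spec

/-!
# MP_72e2e6_nt, theorem T3: comparison of the literal definitions `MP72Q` and `MP72U`
-/

namespace Pool.Agent.MP72P

open WeierstrassCurve IntermediateField
open Pool.Agent.MP72W (pmap)
open Pool.Agent.MP72V

open scoped Classical

private theorem qu_coc {K : Type} [Field K] (W : WeierstrassCurve K) {p : ℕ} [Fact p.Prime]
    {L : Type} [Field L] [Algebra K L] (h : Gal(L/K) → ZMod p)
    (z : Gal(L/K) → ZMod p → (W⁄L).toAffine.Point) (hz : MP72U.IsCoc W h z) :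
    MP72Q.IsCoc W h z :=
  ⟨hz.loc, hz.sum, hz.mul⟩

private theorem qu_sha {K : Type} [Field K] (W : WeierstrassCurve K) {p : ℕ} [Fact p.Prime]
    {L : Type} [Field L] [Algebra K L] (h : Gal(L/K) → ZMod p)
    (z : Gal(L/K) → ZMod p → (W⁄L).toAffine.Point) (hz : MP72U.InSha W h z) :
    MP72Q.InSha W h z :=
  ⟨qu_coc W h z hz.1, hz.2⟩

/-- The property `Good` of the statement `MP72Q.T3p` implies the one of `MP72U.T3`. -/
theorem qu_good {K : Type} [Field K] (W : WeierstrassCurve K) (p : ℕ) [Fact p.Prime] (D : K)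
    (hG : MP72Q.Good W p D) : MP72U.Good W p D := by
  obtain ⟨θ, h, h1, h2, h3, h4, ⟨T, hT, hT2⟩, h5⟩ := hG
  exact ⟨θ, h, h1, h2, h3, h4, ⟨T, hT, fun z hz hP => hT2 z (qu_sha W h z hz) hP⟩, h5⟩

end Pool.Agent.MP72P
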