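import Pool.Agent.Lib.MP_72e2e6_nt.P3.U.Lit
import Pool.Agent.Lib.MP_72e2e6_nt.P3.F.Spec
import Pool.Agent.Lib.MP_72e2e6_nt.WP.El2.Ifc
import Pool.Agent.Lib.MP_72e2e6_nt.W2.E.Spec

/-!
# MP_72e2e6_nt, theorem T3 for every prime `p`, every global function field and every ordinary
elliptic curve: the last steps

Every module is independent (used statements are hypotheses): file `P3/U/<Name>.lean` (import this
file only) with `theorem t<Name> : S_<Name>` or `theorem t<Name> (h1 : S_X) (h2 : S_Y) .. : S_<Name>`
(in the order of the docstring), namespace `Pool.Agent.MP72P` (`open Pool.Agent.MP72V`), other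
declarations `private`, `open scoped Classical`. The literal definitions and the final statement
`MP72U.T3` are in `P3/U/Lit.lean`; `MP72U.X` is literally the same as `MP72Q.X` (`P3/F/Lit.lean`) for all
`X` except `IsGlobal` and the final statement.
-/

namespace Pool.Agent.MP72P

open WeierstrassCurve IntermediateField
open Pool.Agent.MP72W (pmap)
open Pool.Agent.MP72V

open scoped Classical

/-- **Sgf** (200 lines). Every finite extension `K` of `F(t)`, `F` finite, is a finite separable extension
of a field of rational functions over `F`.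

Proof. Mathlib: `exists_isTranscendenceBasis_and_isSeparable_of_perfectField` (`FieldTheory/SeparablyGenerated`)
for `k = F` (finite fields are perfect) and `K` as an `F`-algebra (via `F → RatFunc F → K`). `K` is essentially of
finite type over `F`: `RatFunc F` is (a localization of `F[X]`) and `K` is finite over it. So there is a finite
transcendence basis `s ⊆ K` over `F` with `K` separable over `adjoin F s`. The transcendence degree is one: the
image of `t = RatFunc.X` in `K` is transcendental over `F` and `K` is algebraic over `RatFunc F`, so `{t}` is a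
transcendence basis, and two transcendence bases have the same cardinality (`IsTranscendenceBasis.cardinalMk_eq`):
`s = {x}`. Let `RatFunc F → K` be the homomorphism with `X ↦ x` (`x` is transcendental: `F[X] → K` injective,
`IsFractionRing.lift` or `RatFunc.liftAlgHom`); its image is `adjoin F {x}`. With this algebra structure `K` is separable
(algebraic) over `RatFunc F` (compare with `adjoin F {x}`, e.g. by `Algebra.IsSeparable` along an isomorphism of the
base), and finitely generated as a field over `F`, so finite dimensional (a finitely generated algebraic extension;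
`IntermediateField.finiteDimensional_adjoin`-type, `Algebra.EssFiniteType`: `K` is essentially of finite type
and algebraic over `RatFunc F`: `Algebra.EssFiniteType.finite` or so). -/
def S_Sgf : Prop :=
  ∀ (p : ℕ) [Fact p.Prime] (K : Type) [Field K], MP72U.IsGlobal p K → GFld p K

/-- **Fin2** (250 lines, uses `S_Na`, `S_Has`, `S_Fdg`, `S_IdxE2`, `S_Eql`, `S_Thm2`). The case `p = 2`, `IsN2 E`. The statement of
`S_Fin` in this case; proof: copy of `P3/F/Fin.lean`. -/
def S_Fin2 : Prop :=
  ∀ (K : Type) [Field K], GFld 2 K → ∀ E : WeierstrassCurve K, IsN2 E → MP72U.ThmFor 2 E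

/-- **Vch** (300 lines, uses `MP72W` `W2/E/Cov`, `Inv`). Invariance under changes of variables.

Proof. Let `E' = C • E`. There are isomorphisms of groups `f_L : E(L) → E'(L)` for all extensions `L` of `K`,
compatible with the maps `pmap` for homomorphisms of fields over intermediate fields (`PtIso` of
`W2/E`). They transport all parts of `MP72U.Good`: `Rat`, `IsCoc`, `LocTriv`, `InSha`, `ShaPFin`
(componentwise) and the index of the image of `E(K)` in `E(K(θ))`. So `Good E p D ↔ Good E' p D`. -/
def S_VchU : Prop :=
  ∀ (p : ℕ) [Fact p.Prime] (K : Type) [Field K] (E : WeierstrassCurve K) (C : VariableChange K),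
    MP72U.ThmFor p (C • E) → MP72U.ThmFor p E

/-- **Nfp** (150 lines, uses `W2/E/Cov`, `Inv` for the points). Normal forms.

Proof. (1) `p ≠ 2`: `C = (u, r, s, t) = (1, 0, - a₁ / 2, - a₃ / 2)` (or the corresponding signs of Mathlib's
convention) gives `a₁ = a₃ = 0`; `Δ` is invariant for `u = 1`; the point of order `p` is transported by the
isomorphism of the points over `K̄`. (2) `p = 2`: if `a₁ = 0` then `- P = (x, - y - a₃)`, `a₃ ≠ 0` as `Δ ≠ 0`, so there is
no point with `2 • P = 0`, `P ≠ 0` (as in `W2/E/Nf.lean`: `P = - P` means `a₃ = 0`). So `a₁ ≠ 0`, and by the change of variables of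
`W2/E/Nf.lean` one gets `a₁ = 1`, `a₃ = a₄ = 0` and `a₆ ≠ 0` (`Δ ≠ 0`). -/
def S_Nfp : Prop :=
  ∀ (p : ℕ) [Fact p.Prime] (K : Type) [Field K] [CharP K p] (E : WeierstrassCurve K), E.Δ ≠ 0 →
    (∃ P : (E⁄(AlgebraicClosure K)).toAffine.Point, P ≠ 0 ∧ p • P = 0) →
    ∃ C : VariableChange K, (p ≠ 2 → IsNf (C • E) ∧ Od p (C • E)) ∧ (p = 2 → IsN2 (C • E))

/-- **Uni** (80 lines, uses `S_Sgf`, `S_Fin`, `S_Fin2`, `S_VchU`, `S_Nfp`). THE FINAL STATEMENT.

Proof. `GFld p K` by `S_Sgf`, `CharP K p`. `C` by `S_Nfp`. `p ≠ 2`: `MP72Q.T3p` for `C • E` is `MP72U.ThmFor p (C • E)`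
(the definitions of `MP72Q` and `MP72U` are the same: unfold, or prove `MP72Q.Good W p D → MP72U.Good W p D` by
copying the fields). `p = 2`: `S_Fin2`. Then `S_VchU`. -/
def S_UniT : Prop := MP72U.T3

end Pool.Agent.MP72P
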